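import Pool.Agent.K1H47.CO.Stm

/-!
Heights of the roots of a polynomial relation (piece S_ROOT of the project CO).
-/

set_option autoImplicit false

namespace K1H48.CO

open MvPolynomial Height
open Pool.Agent.K1H47.CO (S_ROOT)

universe u

variable {K : Type u} [Field K] [AdmissibleAbsValues K]

lemma eval_bd (d M : ℕ) (c : Fin (d + 1) → Fin (M + 1) → K) : ∃ C₁ : ℝ, ∀ a : K,
    logHeight (fun m : Fin (M + 1) => ∑ l : Fin (d + 1), c l m * a ^ (l : ℕ)) ≤ C₁ + d * logHeight₁ a := by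
  have hp : ∀ m : Fin (M + 1), (∑ l : Fin (d + 1), C (c l m) * (X 0 ^ (l : ℕ) * X 1 ^ (d - l)) :
      MvPolynomial (Fin 2) K).IsHomogeneous d := by
    intro m
    refine IsHomogeneous.sum _ _ _ fun l _ => ?_
    have h1 : (X 0 ^ (l : ℕ) * X 1 ^ (d - l) : MvPolynomial (Fin 2) K).IsHomogeneous (l + (d - l)) :=
      (isHomogeneous_X_pow 0 _).mul (isHomogeneous_X_pow 1 _)
    have h2 : (l : ℕ) + (d - l) = d := by have := l.isLt; omega
    rw [h2] at h1
    have h3 := (isHomogeneous_C (Fin 2) (c l m)).mul h1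
    rwa [zero_add] at h3
  obtain ⟨C₁, h⟩ := logHeight_eval_le' hp
  refine ⟨C₁, fun a => ?_⟩
  have := h ![a, 1]
  rw [logHeight₁_eq_logHeight]
  refine le_trans (le_of_eq ?_) this
  congr 1
  funext m
  rw [map_sum]
  refine Finset.sum_congr rfl fun l _ => ?_
  simp

lemma mon_bd (n : ℕ) : ∃ C₂ : ℝ, ∀ b : K,
    logHeight (fun j : Fin (n + 1) => b ^ (j : ℕ)) ≤ C₂ + n * logHeight₁ b := by
  have hp : ∀ j : Fin (n + 1), (X 0 ^ (j : ℕ) * X 1 ^ (n - j) : MvPolynomial (Fin 2) K).IsHomogeneous n := by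
    intro l
    have h1 : (X 0 ^ (l : ℕ) * X 1 ^ (n - l) : MvPolynomial (Fin 2) K).IsHomogeneous (l + (n - l)) :=
      (isHomogeneous_X_pow 0 _).mul (isHomogeneous_X_pow 1 _)
    have h2 : (l : ℕ) + (n - l) = n := by have := l.isLt; omega
    rwa [h2] at h1
  obtain ⟨C₁, h⟩ := logHeight_eval_le' hp
  refine ⟨C₁, fun b => ?_⟩
  have := h ![b, 1]
  rw [logHeight₁_eq_logHeight]
  refine le_trans (le_of_eq ?_) this
  congr 1
  funext j
  simp

/-- the matrix of step (3) -/
def mat (M n : ℕ) (z : Fin (n + 2) × (Fin (M + 1) × Fin (n + 1))) : K :=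
  if (z.1 : ℕ) < n + 1 then (if (z.2.1 : ℕ) = n + 1 ∧ (z.2.2 : ℕ) = z.1 then 1 else 0)
  else (if (z.2.1 : ℕ) < n + 1 ∧ (z.2.2 : ℕ) = z.2.1 then -1 else 0)

omit [AdmissibleAbsValues K] in
lemma mat_apply {M n : ℕ} (hM : n + 1 ≤ M) (e : Fin (M + 1) → K) (b : K)
    (h0 : ∀ m : Fin (M + 1), n + 1 < (m : ℕ) → e m = 0) (hs : ∑ m, e m * b ^ (m : ℕ) = 0) (j : Fin (n + 2)) :
    ∑ z : Fin (M + 1) × Fin (n + 1), mat (K := K) M n (j, z) * (e z.1 * b ^ (z.2 : ℕ)) =
      e ⟨n + 1, by omega⟩ * b ^ (j : ℕ) := by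
  by_cases hj : (j : ℕ) < n + 1
  · rw [Finset.sum_eq_single ((⟨n + 1, by omega⟩ : Fin (M + 1)), (⟨j, hj⟩ : Fin (n + 1)))]
    · unfold mat
      simp [hj]
    · rintro ⟨m, i⟩ _ hne
      unfold mat
      rw [if_pos hj, if_neg, zero_mul]
      rintro ⟨h1, h2⟩
      apply hne
      ext
      · exact h1
      · exact h2
    · intro h
      exact absurd (Finset.mem_univ _) h
  · have hj' : (j : ℕ) = n + 1 := by have := j.isLt; omega
    rw [Fintype.sum_prod_type]
    have hin : ∀ m : Fin (M + 1), ∑ i : Fin (n + 1), mat (K := K) M n (j, (m, i)) * (e m * b ^ (i : ℕ)) =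
        (if (m : ℕ) = n + 1 then e ⟨n + 1, by omega⟩ * b ^ (n + 1) else 0) - e m * b ^ (m : ℕ) := by
      intro m
      unfold mat
      simp only [hj, if_false]
      rcases lt_trichotomy (m : ℕ) (n + 1) with h | h | h
      · rw [Finset.sum_eq_single (⟨m, h⟩ : Fin (n + 1))]
        · simp [h, h.ne]
        · intro i _ hi
          rw [if_neg, zero_mul]
          rintro ⟨-, h2⟩
          exact hi (Fin.ext h2)
        · intro h'
          exact absurd (Finset.mem_univ _) h'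
      · have hm : m = ⟨n + 1, by omega⟩ := Fin.ext h
        rw [if_pos h, Finset.sum_eq_zero]
        · rw [hm]
          simp
        · intro i _
          rw [if_neg, zero_mul]
          rintro ⟨h2, -⟩
          omega
      · rw [if_neg (by omega), h0 m h, Finset.sum_eq_zero]
        · simp
        · intro i _
          rw [zero_mul, mul_zero]
    simp only [hin]
    rw [Finset.sum_sub_distrib, hs, sub_zero, Finset.sum_eq_single (⟨n + 1, by omega⟩ : Fin (M + 1))]
    · rw [if_pos rfl, hj']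
    · intro m _ hm
      rw [if_neg]
      intro h
      exact hm (Fin.ext h)
    · intro h
      exact absurd (Finset.mem_univ _) h

lemma step (M n : ℕ) : ∃ C₀ : ℝ, ∀ (hM : n + 1 ≤ M) (e : Fin (M + 1) → K) (b : K),
    e ⟨n + 1, by omega⟩ ≠ 0 → (∀ m : Fin (M + 1), n + 1 < (m : ℕ) → e m = 0) →
    ∑ m, e m * b ^ (m : ℕ) = 0 → logHeight₁ b ≤ logHeight e + C₀ := by
  obtain ⟨C₂, h2⟩ := mon_bd (K := K) n
  refine ⟨C₂ + (totalWeight K * Real.log (Nat.card (Fin (M + 1) × Fin (n + 1))) +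
    logHeight (mat (K := K) M n)), fun hM e b he h0 hs => ?_⟩
  have he0 : e ≠ 0 := fun h => he (by rw [h]; rfl)
  have hb0 : (fun j : Fin (n + 1) => b ^ (j : ℕ)) ≠ 0 := by
    intro h
    have := congrFun h 0
    simp at this
  have h3 := logHeight_linearMap_apply_le (mat (K := K) M n)
    (fun z : Fin (M + 1) × Fin (n + 1) => e z.1 * b ^ (z.2 : ℕ))
  have h4 : logHeight (fun z : Fin (M + 1) × Fin (n + 1) => e z.1 * b ^ (z.2 : ℕ)) =
      logHeight e + logHeight (fun j : Fin (n + 1) => b ^ (j : ℕ)) := logHeight_fun_mul_eq he0 hb0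
  have h5 : (fun j : Fin (n + 2) => ∑ z : Fin (M + 1) × Fin (n + 1), mat (K := K) M n (j, z) *
      (e z.1 * b ^ (z.2 : ℕ))) = e ⟨n + 1, by omega⟩ • fun j : Fin (n + 2) => b ^ (j : ℕ) := by
    funext j
    rw [mat_apply hM e b h0 hs j]
    rfl
  rw [h5, logHeight_smul_eq_logHeight _ he, h4] at h3
  have h6 : logHeight ((fun j : Fin (n + 2) => b ^ (j : ℕ)) ∘ ![Fin.last (n + 1), 0]) ≤
      logHeight (fun j : Fin (n + 2) => b ^ (j : ℕ)) := logHeight_comp_le _ _
  have h7 : (fun j : Fin (n + 2) => b ^ (j : ℕ)) ∘ ![Fin.last (n + 1), 0] = ![b ^ (n + 1), 1] := by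
    funext i
    fin_cases i <;> simp
  rw [h7, ← logHeight₁_eq_logHeight, logHeight₁_pow] at h6
  have h8 := h2 b
  push_cast at h6
  linarith

theorem t_ROOT : S_ROOT.{u} := by
  classical
  intro K _ _ d M c hc
  obtain ⟨l₀, m₀, hlm⟩ : ∃ l₀ m₀, c l₀ m₀ ≠ 0 := by
    by_contra h
    push Not at h
    exact hc (funext fun l => funext fun m => h l m)
  obtain ⟨P, hP⟩ : ∃ P : Polynomial K, P = ∑ l : Fin (d + 1), Polynomial.monomial (l : ℕ) (c l m₀) := ⟨_, rfl⟩
  have hP0 : P ≠ 0 := by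
    intro h
    apply hlm
    have h1 := congrArg (fun Q : Polynomial K => Q.coeff l₀) h
    rw [hP] at h1
    simp only [Polynomial.finset_sum_coeff, Polynomial.coeff_monomial, Polynomial.coeff_zero] at h1
    rw [Finset.sum_eq_single l₀] at h1
    · simpa using h1
    · intro l _ hl
      rw [if_neg]
      intro h
      exact hl (Fin.ext h)
    · intro h
      exact absurd (Finset.mem_univ _) h
  have hPe : ∀ a, P.eval a = ∑ l : Fin (d + 1), c l m₀ * a ^ (l : ℕ) := by
    intro a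
    rw [hP, Polynomial.eval_finset_sum]
    refine Finset.sum_congr rfl fun l _ => ?_
    rw [Polynomial.eval_monomial]
  obtain ⟨C₁, h1⟩ := eval_bd d M c
  have hstep := fun n : ℕ => step (K := K) M n
  choose C₂ h2 using hstep
  refine ⟨C₁ + ∑ n ∈ Finset.range M, |C₂ n|, P.roots.toFinset, fun a b hab ha => ?_⟩
  obtain ⟨e, he⟩ : ∃ e : Fin (M + 1) → K, e = fun m => ∑ l : Fin (d + 1), c l m * a ^ (l : ℕ) := ⟨_, rfl⟩
  have he0 : e m₀ ≠ 0 := by
    intro h
    apply ha
    rw [Multiset.mem_toFinset, Polynomial.mem_roots hP0, Polynomial.IsRoot.def, hPe]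
    rw [he] at h
    exact h
  have hs : ∑ m, e m * b ^ (m : ℕ) = 0 := by
    rw [← hab, Finset.sum_comm]
    refine Finset.sum_congr rfl fun m _ => ?_
    rw [he]
    simp only []
    rw [Finset.sum_mul]
    refine Finset.sum_congr rfl fun l _ => ?_
    ring
  obtain ⟨m', hm', hmax⟩ := Finset.exists_max_image (Finset.univ.filter fun m => e m ≠ 0) (fun m => (m : ℕ))
    ⟨m₀, by simp [he0]⟩
  have hm0 : e m' ≠ 0 := (Finset.mem_filter.1 hm').2
  have hz : ∀ m : Fin (M + 1), (m' : ℕ) < m → e m = 0 := by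
    intro m hm
    by_contra h
    have := hmax m (by simp [h])
    omega
  rcases Nat.eq_zero_or_pos (m' : ℕ) with h0 | h0
  · exfalso
    apply hm0
    rw [Finset.sum_eq_single m'] at hs
    · rw [h0, pow_zero, mul_one] at hs
      exact hs
    · intro m _ hne
      rw [hz m, zero_mul]
      rw [h0]
      have : (m : ℕ) ≠ m' := fun h => hne (Fin.ext h)
      omega
    · intro h
      exact absurd (Finset.mem_univ _) h
  · obtain ⟨n, hn⟩ : ∃ n, (m' : ℕ) = n + 1 := ⟨m' - 1, by omega⟩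
    have hM : n + 1 ≤ M := by have := m'.isLt; omega
    have hme : m' = ⟨n + 1, by omega⟩ := Fin.ext hn
    have h3 := h2 n hM e b (by rw [← hme]; exact hm0) (fun m hm => hz m (by omega)) hs
    have h4 : C₂ n ≤ ∑ n ∈ Finset.range M, |C₂ n| :=
      (le_abs_self _).trans (Finset.single_le_sum (f := fun n => |C₂ n|) (fun i _ => abs_nonneg _)
        (Finset.mem_range.2 (by omega)))
    have h5 := h1 a
    rw [← he] at h5
    linarith

end K1H48.CO
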